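import Pool.Agent.H17.SQA.Stmts

/-!
# SQA, row DUA: duality
-/

set_option autoImplicit false
set_option linter.all false

namespace Pool.SQA

open Finset MvPolynomial Pool.FOS Pool.CST

theorem t_dua : DUAStmt := by
  classical
  intro m d K _ _ _ I s g hg hinj φ hφ
  let U : Submodule ℂ ((Fin m → K) → ℂ) :=
    { carrier := {φ | ∃ h : ∀ B : Finset (Fin m), Fin (s B) → (Fin m → K) → ℂ,
        (∀ B j, DependsOn (h B j) ((I \ B : Finset (Fin m)) : Set (Fin m))) ∧
        ∀ y ∈ sp K I, φ y = ∑ B ∈ I.powersetCard d, ∑ j, g B j y * h B j y}
      add_mem' := by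
        rintro a b ⟨h, h1, h2⟩ ⟨h', h1', h2'⟩
        refine ⟨fun B j y => h B j y + h' B j y, ?_, ?_⟩
        · intro B j x y hxy
          show h B j x + h' B j x = h B j y + h' B j y
          rw [h1 B j hxy, h1' B j hxy]
        · intro y hy
          rw [Pi.add_apply, h2 y hy, h2' y hy, ← Finset.sum_add_distrib]
          apply Finset.sum_congr rfl
          intro B _
          rw [← Finset.sum_add_distrib]
          apply Finset.sum_congr rfl
          intro j _
          ring
      zero_mem' := by
        refine ⟨fun _ _ _ => 0, ?_, ?_⟩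
        · intro B j x y _; rfl
        · intro y _; simp
      smul_mem' := by
        rintro c a ⟨h, h1, h2⟩
        refine ⟨fun B j y => c * h B j y, ?_, ?_⟩
        · intro B j x y hxy
          show c * h B j x = c * h B j y
          rw [h1 B j hxy]
        · intro y hy
          rw [Pi.smul_apply, smul_eq_mul, h2 y hy, Finset.mul_sum]
          apply Finset.sum_congr rfl
          intro B _
          rw [Finset.mul_sum]
          apply Finset.sum_congr rfl
          intro j _
          ring }
  have hU : U = ⊤ := by
    by_contra hne
    obtain ⟨f, hf, hUf⟩ := Submodule.exists_le_ker_of_lt_top U (lt_top_iff_ne_top.mpr hne)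
    set ξ : (Fin m → K) → ℂ := fun y => f (Pi.single y 1) with hξ
    have hfsum : ∀ ψ : (Fin m → K) → ℂ, f ψ = ∑ y, ψ y * ξ y := by
      intro ψ
      conv_lhs => rw [← Finset.univ_sum_single ψ, map_sum]
      apply Finset.sum_congr rfl
      intro y _
      have h1 : (Pi.single y (ψ y) : (Fin m → K) → ℂ) = ψ y • Pi.single y (1 : ℂ) := by
        rw [← Pi.single_smul, smul_eq_mul, mul_one]
      rw [h1, map_smul, smul_eq_mul]
    have hξ0 : ∀ y, y ∉ sp K I → ξ y = 0 := by
      intro y hy
      have h1 : (Pi.single y 1 : (Fin m → K) → ℂ) ∈ U := by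
        refine ⟨fun _ _ _ => 0, fun B j x y _ => rfl, ?_⟩
        intro y' hy'
        have : y' ≠ y := fun h => hy (h ▸ hy')
        simp [this]
      exact hUf h1
    have hzero : ξ = 0 := by
      apply hinj ξ hξ0
      intro B hB j z hz
      have hBI : B ⊆ I := (Finset.mem_powersetCard.mp hB).1
      set h0 : (Fin m → K) → ℂ := fun y => if ∀ i ∈ I \ B, y i = z i then 1 else 0 with hh0
      have hd0 : DependsOn h0 ((I \ B : Finset (Fin m)) : Set (Fin m)) := by
        intro x y hxy
        have : (∀ i ∈ I \ B, x i = z i) ↔ (∀ i ∈ I \ B, y i = z i) := by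
          constructor
          · intro h i hi; rw [← hxy i (Finset.mem_coe.mpr hi)]; exact h i hi
          · intro h i hi; rw [hxy i (Finset.mem_coe.mpr hi)]; exact h i hi
        simp only [h0, this]
      have hmem : (fun y => g B j y * h0 y) ∈ U := by
        refine ⟨fun B' j' y => if (⟨B', j'⟩ : Σ B : Finset (Fin m), Fin (s B)) = ⟨B, j⟩ then
          h0 y else 0, ?_, ?_⟩
        · intro B' j' x y hxy
          by_cases he : (⟨B', j'⟩ : Σ B : Finset (Fin m), Fin (s B)) = ⟨B, j⟩
          · simp only [if_pos he]
            apply hd0
            have : B' = B := congrArg Sigma.fst he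
            rw [← this]; exact hxy
          · simp only [if_neg he]
        · intro y _
          rw [Finset.sum_eq_single B]
          · rw [Finset.sum_eq_single j]
            · simp
            · intro j' _ hj'
              have : (⟨B, j'⟩ : Σ B : Finset (Fin m), Fin (s B)) ≠ ⟨B, j⟩ := by
                intro h
                exact hj' (eq_of_heq (Sigma.mk.inj_iff.mp h).2)
              simp only [if_neg this, mul_zero]
            · intro h; exact absurd (Finset.mem_univ j) h
          · intro B' _ hB'
            apply Finset.sum_eq_zero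
            intro j' _
            have : (⟨B', j'⟩ : Σ B : Finset (Fin m), Fin (s B)) ≠ ⟨B, j⟩ := by
              intro h
              exact hB' (Sigma.mk.inj_iff.mp h).1
            simp only [if_neg this, mul_zero]
          · intro h; exact absurd hB h
      have h1 : f (fun y => g B j y * h0 y) = 0 := hUf hmem
      rw [hfsum] at h1
      rw [← h1]
      -- the sum over all `y` is the sum over `sp B`
      symm
      have hz' : ∀ i, i ∉ I \ B → z i = 0 := (Finset.mem_filter.mp hz).2
      rw [← Finset.sum_subset (Finset.subset_univ ((sp K B).image (fun x => x + z)))]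
      · rw [Finset.sum_image (fun x _ y _ h => add_right_cancel h)]
        apply Finset.sum_congr rfl
        intro x hx
        have hx' : ∀ i, i ∉ B → x i = 0 := (Finset.mem_filter.mp hx).2
        have e1 : h0 (x + z) = 1 := by
          simp only [h0]
          rw [if_pos]
          intro i hi
          rw [Finset.mem_sdiff] at hi
          rw [Pi.add_apply, hx' i hi.2, zero_add]
        have e2 : g B j (x + z) = g B j x := by
          apply hg B j
          intro i hi
          have : i ∉ I \ B := by
            intro h; exact (Finset.mem_sdiff.mp h).2 (Finset.mem_coe.mp hi)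
          rw [Pi.add_apply, hz' i this, add_zero]
        rw [e1, e2, mul_one]
      · intro y _ hy
        by_cases hyI : y ∈ sp K I
        swap
        · rw [hξ0 y hyI, mul_zero]
        have hyI' : ∀ i, i ∉ I → y i = 0 := (Finset.mem_filter.mp hyI).2
        have : h0 y = 0 := by
          simp only [h0]
          rw [if_neg]
          intro h
          apply hy
          rw [Finset.mem_image]
          refine ⟨y - z, ?_, by simp⟩
          rw [sp, Finset.mem_filter]
          refine ⟨Finset.mem_univ _, fun i hi => ?_⟩
          by_cases hiI : i ∈ I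
          · rw [Pi.sub_apply, h i (Finset.mem_sdiff.mpr ⟨hiI, hi⟩), sub_self]
          · have : i ∉ I \ B := fun h => hiI (Finset.mem_sdiff.mp h).1
            rw [Pi.sub_apply, hyI' i hiI, hz' i this, sub_self]
        rw [this, mul_zero, zero_mul]
    apply hf
    refine LinearMap.ext fun ψ => ?_
    have := hfsum ψ
    rw [this]
    apply Finset.sum_eq_zero
    intro y _
    rw [hzero, Pi.zero_apply, mul_zero]
  have hφU : φ ∈ U := by rw [hU]; trivial
  obtain ⟨h, h1, h2⟩ := hφU
  refine ⟨h, h1, ?_⟩
  intro y
  set y' : Fin m → K := fun i => if i ∈ I then y i else 0 with hy'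
  have hy'I : y' ∈ sp K I := by
    rw [sp, Finset.mem_filter]
    refine ⟨Finset.mem_univ _, fun i hi => ?_⟩
    simp [y', hi]
  have hyy : ∀ i ∈ I, y i = y' i := by
    intro i hi; simp [y', hi]
  have e1 : φ y = φ y' := hφ (fun i hi => hyy i (Finset.mem_coe.mp hi))
  rw [e1, h2 y' hy'I]
  apply Finset.sum_congr rfl
  intro B hB
  have hBI : B ⊆ I := (Finset.mem_powersetCard.mp hB).1
  apply Finset.sum_congr rfl
  intro j _
  have e2 : g B j y = g B j y' := hg B j (fun i hi => hyy i (hBI (Finset.mem_coe.mp hi)))
  have e3 : h B j y = h B j y' :=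
    h1 B j (fun i hi => hyy i (Finset.mem_sdiff.mp (Finset.mem_coe.mp hi)).1)
  rw [e2, e3]

end Pool.SQA
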