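import Pool.Agent.H17.SQA.Stmts

/-!
# SQA, row FIX: fixed points of a linear map
-/

set_option autoImplicit false
set_option linter.all false

namespace Pool.SQA

open Finset MvPolynomial Pool.FOS Pool.CST

theorem t_fix : FIXStmt := by
  intro m K _ _ _ I T hT
  have hcard : (sp K I).card = Fintype.card K ^ I.card := by
    have h1 : sp K I = Fintype.piFinset (fun i => if i ∈ I then (univ : Finset K) else {0}) := by
      ext y
      rw [sp, Finset.mem_filter, Fintype.mem_piFinset]
      constructor
      · rintro ⟨_, h⟩ i
        by_cases hi : i ∈ I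
        · simp [hi]
        · simp [hi, h i hi]
      · intro h
        refine ⟨Finset.mem_univ _, fun i hi => ?_⟩
        have := h i
        simpa [hi] using this
    rw [h1, Fintype.card_piFinset]
    have h2 : ∀ i : Fin m, (if i ∈ I then (univ : Finset K) else {0}).card =
        if i ∈ I then Fintype.card K else 1 := by
      intro i
      by_cases hi : i ∈ I
      · simp [hi]
      · simp [hi]
    rw [Finset.prod_congr rfl (fun i _ => h2 i), Finset.prod_ite_mem, Finset.univ_inter,
      Finset.prod_const]
  refine ⟨hcard, ?_⟩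
  obtain ⟨y0, hy0, hTy⟩ := hT
  rw [← hcard, ← Finset.card_univ, ← Finset.card_product]
  apply Finset.card_le_card_of_injOn (fun p : (Fin m → K) × K => p.1 + p.2 • y0)
  · rintro ⟨y, c⟩ hp
    rw [Finset.mem_coe, Finset.mem_product, Finset.mem_filter, sp, Finset.mem_filter] at hp
    rw [Finset.mem_coe, sp, Finset.mem_filter]
    refine ⟨Finset.mem_univ _, fun i hi => ?_⟩
    have h1 : y i = 0 := hp.1.1.2 i hi
    show y i + c * y0 i = 0
    rw [h1, hy0 i hi, mul_zero, add_zero]
  · rintro ⟨y, c⟩ hp ⟨y', c'⟩ hp' h
    rw [Finset.mem_coe, Finset.mem_product, Finset.mem_filter] at hp hp'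
    simp only at h hp hp'
    have h1 := congrArg T h
    rw [map_add, map_add, map_smul, map_smul, hp.1.2, hp'.1.2] at h1
    have h2 : (c - c') • (T y0 - y0) = 0 := by
      have e1 : (c - c') • (T y0 - y0) = (y + c • T y0 - (y' + c' • T y0)) -
          (y + c • y0 - (y' + c' • y0)) := by
        module
      rw [e1, h1, h, sub_self, sub_self, sub_zero]
    rcases smul_eq_zero.mp h2 with h3 | h3
    · have h4 : c = c' := sub_eq_zero.mp h3
      subst h4
      have h5 : y = y' := add_right_cancel h
      rw [h5]
    · exact absurd (sub_eq_zero.mp h3) hTy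

end Pool.SQA
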